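import Pool.Agent.R13.Dim.L2

/-! Baire category dichotomy for the local discrete maximal function. -/

open MeasureTheory Complex Real
open scoped RealInnerProductSpace ENNReal NNReal ComplexConjugate Topology

set_option linter.unusedSectionVars false

namespace R13.Gen

open R13.Radii R13.Dim

variable {V : Type*} [NormedAddCommGroup V] [InnerProductSpace ℝ V] [FiniteDimensional ℝ V]
  [MeasurableSpace V] [BorelSpace V]

/-- Maximal function over the radii `r k`. -/
noncomputable def dm (r : ℕ → ℝ) (g : V → ℂ) (x : V) : ℝ≥0∞ := ⨆ k, ‖ballInt g (r k) x‖ₑ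

lemma measurable_dm (r : ℕ → ℝ) {g : V → ℂ} (hg : MemLp g 2 (volume : Measure V)) :
    Measurable (dm r g) := Measurable.iSup fun k => (continuous_ballInt_x hg (r k)).enorm.measurable

lemma ballInt_congr {g h : V → ℂ} (hgh : g =ᵐ[volume] h) (R : ℝ) (x : V) :
    ballInt g R x = ballInt h R x := by
  unfold ballInt
  refine integral_congr_ae ?_
  filter_upwards [ae_restrict_of_ae hgh] with ξ hξ
  rw [hξ]

lemma ballInt_add {g h : V → ℂ} (hg : MemLp g 2 (volume : Measure V))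
    (hh : MemLp h 2 (volume : Measure V)) (R : ℝ) (x : V) :
    ballInt (g + h) R x = ballInt g R x + ballInt h R x := by
  set μ := (volume : Measure V).restrict (Metric.closedBall (0:V) R) with hμ
  have hfin : IsFiniteMeasure μ := ⟨by
    rw [hμ, Measure.restrict_apply_univ]; exact measure_closedBall_lt_top⟩
  have hg1 : Integrable g μ := (hg.restrict _).integrable (by norm_num)
  have hh1 : Integrable h μ := (hh.restrict _).integrable (by norm_num)
  have c1 : Integrable (fun ξ => chr x ξ * g ξ) μ := hg1.bdd_mul (c := 1)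
    (continuous_chr_right x).aestronglyMeasurable (Filter.Eventually.of_forall fun ξ => (norm_chr x ξ).le)
  have c2 : Integrable (fun ξ => chr x ξ * h ξ) μ := hh1.bdd_mul (c := 1)
    (continuous_chr_right x).aestronglyMeasurable (Filter.Eventually.of_forall fun ξ => (norm_chr x ξ).le)
  unfold ballInt
  rw [← hμ, ← integral_add c1 c2]
  congr 1
  funext ξ
  simp only [Pi.add_apply]
  ring

lemma ballInt_smul (c : ℂ) (g : V → ℂ) (R : ℝ) (x : V) :
    ballInt (c • g) R x = c * ballInt g R x := by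
  unfold ballInt
  rw [← integral_const_mul]
  congr 1
  funext ξ
  simp only [Pi.smul_apply, smul_eq_mul]
  ring

/-- The local energy. -/
noncomputable def en (r : ℕ → ℝ) (x₀ : V) (ρ : ℝ) (g : V → ℂ) : ℝ≥0∞ :=
  ∫⁻ x in Metric.closedBall x₀ ρ, dm r g x ^ 2

lemma en_lsc (r : ℕ → ℝ) (x₀ : V) (ρ : ℝ) {u : ℕ → V → ℂ} {g : V → ℂ}
    (hu : ∀ j, MemLp (u j) 2 (volume : Measure V)) (hg : MemLp g 2 (volume : Measure V))
    (hlim : Filter.Tendsto (fun j => eLpNorm (u j - g) 2 volume) Filter.atTop (𝓝 0))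
    {K : ℝ≥0∞} (hK : ∀ j, en r x₀ ρ (u j) ≤ K) : en r x₀ ρ g ≤ K := by
  have hpt : ∀ (R : ℝ) (x : V), Filter.Tendsto (fun j => ‖ballInt (u j) R x‖ₑ) Filter.atTop
      (𝓝 ‖ballInt g R x‖ₑ) := by
    intro R x
    have h1 : Filter.Tendsto (fun j => ballInt (u j) R x) Filter.atTop (𝓝 (ballInt g R x)) := by
      rw [tendsto_iff_edist_tendsto_0]
      have hv : volume (Metric.closedBall (0:V) R) ^ (1/2 : ℝ) ≠ ∞ :=
        ENNReal.rpow_ne_top_of_nonneg (by norm_num) measure_closedBall_lt_top.ne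
      have h2 : Filter.Tendsto (fun j => eLpNorm (u j - g) 2 volume
          * volume (Metric.closedBall (0:V) R) ^ (1/2 : ℝ)) Filter.atTop (𝓝 (0 * _)) :=
        ENNReal.Tendsto.mul_const hlim (Or.inr hv)
      rw [zero_mul] at h2
      refine tendsto_of_tendsto_of_tendsto_of_le_of_le tendsto_const_nhds h2 (fun _ => bot_le)
        fun j => ?_
      rw [edist_eq_enorm_sub]
      exact ballInt_diff_le (hu j) hg R x
    exact (continuous_enorm.tendsto _).comp h1
  have hl : ∀ x, dm r g x ^ 2 ≤ Filter.liminf (fun j => dm r (u j) x ^ 2) Filter.atTop := by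
    intro x
    have hR : ∀ k, ‖ballInt g (r k) x‖ₑ
        ≤ (Filter.liminf (fun j => dm r (u j) x ^ 2) Filter.atTop) ^ (1/2 : ℝ) := by
      intro k
      apply sq_le_imp
      have h1 : Filter.Tendsto (fun j => ‖ballInt (u j) (r k) x‖ₑ ^ 2) Filter.atTop
          (𝓝 (‖ballInt g (r k) x‖ₑ ^ 2)) :=
        ((ENNReal.continuous_pow 2).tendsto _).comp (hpt (r k) x)
      rw [← h1.liminf_eq]
      refine Filter.liminf_le_liminf (Filter.Eventually.of_forall fun j => ?_)
      have : ‖ballInt (u j) (r k) x‖ₑ ≤ dm r (u j) x := le_iSup (fun k => ‖ballInt (u j) (r k) x‖ₑ) k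
      gcongr
    calc dm r g x ^ 2
        ≤ ((Filter.liminf (fun j => dm r (u j) x ^ 2) Filter.atTop) ^ (1/2 : ℝ)) ^ 2 := by
          gcongr
          exact iSup_le hR
      _ = _ := rpow_half_sq _
  calc en r x₀ ρ g ≤ ∫⁻ x in Metric.closedBall x₀ ρ,
        Filter.liminf (fun j => dm r (u j) x ^ 2) Filter.atTop := lintegral_mono hl
    _ ≤ Filter.liminf (fun j => en r x₀ ρ (u j)) Filter.atTop :=
        lintegral_liminf_le fun j => (measurable_dm r (hu j)).pow_const 2
    _ ≤ Filter.liminf (fun _ : ℕ => K) Filter.atTop :=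
        Filter.liminf_le_liminf (Filter.Eventually.of_forall hK)
    _ = K := Filter.liminf_const K

/-- Closedness of the sublevel sets. -/
lemma closed_sub (r : ℕ → ℝ) (x₀ : V) (ρ : ℝ) (K : ℝ≥0∞) :
    IsClosed {g : Lp ℂ 2 (volume : Measure V) | en r x₀ ρ (g : V → ℂ) ≤ K} := by
  apply IsSeqClosed.isClosed
  intro u g hu hlim
  refine en_lsc r x₀ ρ (u := fun j => (u j : V → ℂ)) (fun j => Lp.memLp (u j)) (Lp.memLp g) ?_ hu
  exact (Lp.tendsto_Lp_iff_tendsto_eLpNorm' u g).1 hlim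

/-- **Dichotomy.** -/
theorem dichotomy (r : ℕ → ℝ) (x₀ : V) :
    (∃ ρ : ℝ, 0 < ρ ∧ ∃ C : ℝ≥0∞, C ≠ ∞ ∧ ∀ g : V → ℂ, MemLp g 2 (volume : Measure V) →
      en r x₀ ρ g ≤ C * ∫⁻ ξ, ‖g ξ‖ₑ ^ 2) ∨
    (∀ᶠ g : Lp ℂ 2 (volume : Measure V) in residual (Lp ℂ 2 (volume : Measure V)),
      ∀ ρ : ℝ, 0 < ρ → en r x₀ ρ (g : V → ℂ) = ∞) := by
  have hfact : Fact ((1:ℝ≥0∞) ≤ 2) := ⟨by norm_num⟩
  by_cases hint : ∃ j k : ℕ, (interior {g : Lp ℂ 2 (volume : Measure V) |
      en r x₀ (1 / ((j:ℝ) + 1)) (g : V → ℂ) ≤ (k : ℝ≥0∞)}).Nonempty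
  · left
    obtain ⟨j, k, g₀, hg₀⟩ := hint
    set ρ : ℝ := 1 / ((j:ℝ) + 1) with hρ
    have hρ0 : 0 < ρ := by positivity
    obtain ⟨δ, hδ, hball⟩ := Metric.mem_nhds_iff.1 (mem_interior_iff_mem_nhds.1 hg₀)
    refine ⟨ρ, hρ0, ENNReal.ofReal ((2 / δ) ^ 2) * (8 * (k : ℝ≥0∞)), ?_, ?_⟩
    · exact ENNReal.mul_ne_top ENNReal.ofReal_ne_top (ENNReal.mul_ne_top (by norm_num) (by simp))
    intro g hg
    set G : Lp ℂ 2 (volume : Measure V) := hg.toLp g with hG
    have hGg : (G : V → ℂ) =ᵐ[volume] g := hg.coeFn_toLp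
    have hnorm : ENNReal.ofReal (‖G‖ ^ 2) = ∫⁻ ξ, ‖g ξ‖ₑ ^ 2 := by
      rw [← sq_int_eq, ENNReal.ofReal_pow (norm_nonneg _), hG, Lp.norm_toLp,
        ENNReal.ofReal_toReal hg.eLpNorm_ne_top]
    rcases eq_or_lt_of_le (norm_nonneg G) with h0 | hpos
    · -- g = 0 a.e.
      have hG0 : G = 0 := norm_eq_zero.1 h0.symm
      have hg0 : g =ᵐ[volume] (0 : V → ℂ) := by
        have : (G : V → ℂ) =ᵐ[volume] (0 : V → ℂ) := by
          rw [hG0]; exact Lp.coeFn_zero _ _ _
        exact hGg.symm.trans this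
      have hz : ∀ x, dm r g x = 0 := by
        intro x
        unfold dm
        simp only [ENNReal.iSup_eq_zero]
        intro i
        rw [ballInt_congr hg0]
        simp [ballInt]
      unfold en
      simp [hz]
    · set c : ℝ := δ / (2 * ‖G‖) with hc
      have hc0 : 0 < c := by positivity
      have hmem : g₀ + (c : ℂ) • G ∈ Metric.ball g₀ δ := by
        rw [Metric.mem_ball, dist_eq_norm, add_sub_cancel_left, norm_smul, Complex.norm_real,
          Real.norm_of_nonneg hc0.le, hc]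
        have : δ / (2 * ‖G‖) * ‖G‖ = δ / 2 := by field_simp
        rw [this]; linarith
      have e1 : en r x₀ ρ ((g₀ + (c : ℂ) • G : Lp ℂ 2 (volume : Measure V)) : V → ℂ) ≤ (k : ℝ≥0∞) :=
        hball hmem
      have e2 : en r x₀ ρ (g₀ : V → ℂ) ≤ (k : ℝ≥0∞) := by
        have h := interior_subset hg₀
        exact h
      have hcg : MemLp ((c : ℂ) • g) 2 (volume : Measure V) := hg.const_smul _
      have hfun : ((g₀ + (c : ℂ) • G : Lp ℂ 2 (volume : Measure V)) : V → ℂ)
          =ᵐ[volume] (g₀ : V → ℂ) + (c : ℂ) • g := by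
        refine (Lp.coeFn_add _ _).trans ?_
        filter_upwards [Lp.coeFn_smul (c : ℂ) G, hGg] with ξ h1 h2
        simp only [Pi.add_apply, h1, Pi.smul_apply, h2]
      have hpt : ∀ x, dm r ((c : ℂ) • g) x
          ≤ dm r ((g₀ + (c : ℂ) • G : Lp ℂ 2 (volume : Measure V)) : V → ℂ) x + dm r (g₀ : V → ℂ) x := by
        intro x
        refine iSup_le fun i => ?_
        have e3 : ballInt ((c : ℂ) • g) (r i) x
            = ballInt ((g₀ + (c : ℂ) • G : Lp ℂ 2 (volume : Measure V)) : V → ℂ) (r i) x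
              - ballInt (g₀ : V → ℂ) (r i) x := by
          rw [ballInt_congr hfun, ballInt_add (Lp.memLp g₀) hcg]
          ring
        rw [e3]
        refine enorm_sub_le.trans ?_
        gcongr
        · exact le_iSup (fun i => ‖ballInt ((g₀ + (c : ℂ) • G : Lp ℂ 2 (volume : Measure V)) : V → ℂ)
            (r i) x‖ₑ) i
        · exact le_iSup (fun i => ‖ballInt (g₀ : V → ℂ) (r i) x‖ₑ) i
      have e4 : en r x₀ ρ ((c : ℂ) • g) ≤ 8 * (k : ℝ≥0∞) := by
        unfold en
        have hm := (measurable_dm r (Lp.memLp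
          (g₀ + (c : ℂ) • G : Lp ℂ 2 (volume : Measure V)))).pow_const 2
        calc ∫⁻ x in Metric.closedBall x₀ ρ, dm r ((c : ℂ) • g) x ^ 2
            ≤ ∫⁻ x in Metric.closedBall x₀ ρ,
              (4 * dm r ((g₀ + (c : ℂ) • G : Lp ℂ 2 (volume : Measure V)) : V → ℂ) x ^ 2
                + 4 * dm r (g₀ : V → ℂ) x ^ 2) := by
              refine lintegral_mono fun x => ?_
              refine le_trans ?_ (add_sq_le_four _ _)
              have := hpt x
              gcongr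
          _ = 4 * en r x₀ ρ ((g₀ + (c : ℂ) • G : Lp ℂ 2 (volume : Measure V)) : V → ℂ)
              + 4 * en r x₀ ρ (g₀ : V → ℂ) := by
              rw [lintegral_add_left (hm.const_mul 4), lintegral_const_mul' _ _ (by norm_num),
                lintegral_const_mul' _ _ (by norm_num)]
              rfl
          _ ≤ 4 * (k : ℝ≥0∞) + 4 * (k : ℝ≥0∞) := by gcongr
          _ = 8 * (k : ℝ≥0∞) := by ring
      have e5 : ∀ x, dm r ((c : ℂ) • g) x = ENNReal.ofReal c * dm r g x := by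
        intro x
        unfold dm
        rw [ENNReal.mul_iSup]
        congr 1
        funext i
        rw [ballInt_smul, enorm_mul]
        congr 1
        rw [← ofReal_norm, Complex.norm_real, Real.norm_of_nonneg hc0.le]
      have e6 : en r x₀ ρ ((c : ℂ) • g) = ENNReal.ofReal c ^ 2 * en r x₀ ρ g := by
        unfold en
        simp_rw [e5, mul_pow]
        rw [lintegral_const_mul' _ _ (by simp [ENNReal.ofReal_ne_top])]
      rw [e6] at e4
      have e7 : en r x₀ ρ g = ENNReal.ofReal ((1 / c) ^ 2) * (ENNReal.ofReal c ^ 2 * en r x₀ ρ g) := by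
        rw [← mul_assoc, ← ENNReal.ofReal_pow hc0.le, ← ENNReal.ofReal_mul (by positivity),
          ← mul_pow, one_div, inv_mul_cancel₀ hc0.ne']
        simp
      rw [e7]
      calc ENNReal.ofReal ((1 / c) ^ 2) * (ENNReal.ofReal c ^ 2 * en r x₀ ρ g)
          ≤ ENNReal.ofReal ((1 / c) ^ 2) * (8 * (k : ℝ≥0∞)) := by gcongr
        _ = ENNReal.ofReal ((2 / δ) ^ 2) * (8 * (k : ℝ≥0∞)) * ∫⁻ ξ, ‖g ξ‖ₑ ^ 2 := by
            rw [← hnorm]
            have : (1 / c) ^ 2 = (2 / δ) ^ 2 * ‖G‖ ^ 2 := by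
              rw [hc]; field_simp
            rw [this, ENNReal.ofReal_mul (by positivity)]
            ring
  · right
    push Not at hint
    have hres : ∀ j k : ℕ, ∀ᶠ g : Lp ℂ 2 (volume : Measure V) in residual (Lp ℂ 2 (volume : Measure V)),
        ¬ (en r x₀ (1 / ((j:ℝ) + 1)) (g : V → ℂ) ≤ (k : ℝ≥0∞)) := by
      intro j k
      have h1 := hint j k
      have hopen : IsOpen {g : Lp ℂ 2 (volume : Measure V) |
          en r x₀ (1 / ((j:ℝ) + 1)) (g : V → ℂ) ≤ (k : ℝ≥0∞)}ᶜ :=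
        (closed_sub r x₀ (1 / ((j:ℝ) + 1)) (k : ℝ≥0∞)).isOpen_compl
      have hdense : Dense {g : Lp ℂ 2 (volume : Measure V) |
          en r x₀ (1 / ((j:ℝ) + 1)) (g : V → ℂ) ≤ (k : ℝ≥0∞)}ᶜ :=
        interior_eq_empty_iff_dense_compl.1 h1
      exact residual_of_dense_open hopen hdense
    have hall : ∀ᶠ g : Lp ℂ 2 (volume : Measure V) in residual (Lp ℂ 2 (volume : Measure V)),
        ∀ j k : ℕ, ¬ (en r x₀ (1 / ((j:ℝ) + 1)) (g : V → ℂ) ≤ (k : ℝ≥0∞)) := by
      rw [eventually_countable_forall]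
      intro j
      rw [eventually_countable_forall]
      exact hres j
    filter_upwards [hall] with g hg ρ hρ
    obtain ⟨j, hj⟩ := exists_nat_one_div_lt hρ
    have hsub : en r x₀ (1 / ((j:ℝ) + 1)) (g : V → ℂ) ≤ en r x₀ ρ (g : V → ℂ) :=
      lintegral_mono_set (Metric.closedBall_subset_closedBall hj.le)
    by_contra hne
    obtain ⟨k, hk⟩ := ENNReal.exists_nat_gt (ne_top_of_le_ne_top hne hsub)
    exact hg j k hk.le

/-- Translation of the centre. -/
lemma en_translate (r : ℕ → ℝ) (x₀ : V) (ρ : ℝ) {g : V → ℂ} :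
    en r (0 : V) ρ g = en r x₀ ρ (fun ξ => chr (-x₀) ξ * g ξ) := by
  have h1 : ∀ x, dm r g x = dm r (fun ξ => chr (-x₀) ξ * g ξ) (x + x₀) := by
    intro x
    unfold dm
    congr 1
    funext k
    congr 1
    unfold ballInt
    congr 1
    funext ξ
    have : chr (x + x₀) ξ * chr (-x₀) ξ = chr x ξ := by
      unfold chr
      rw [← Complex.exp_add]
      congr 1
      rw [inner_add_left, inner_neg_left]
      push_cast
      ring
    rw [← mul_assoc, this]
  unfold en
  simp_rw [h1]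
  have h2 := lintegral_add_right_eq_self (μ := (volume : Measure V))
    ((Metric.closedBall x₀ ρ).indicator (fun y => dm r (fun ξ => chr (-x₀) ξ * g ξ) y ^ 2)) x₀
  rw [lintegral_indicator Metric.isClosed_closedBall.measurableSet] at h2
  rw [← h2, ← lintegral_indicator Metric.isClosed_closedBall.measurableSet]
  congr 1
  funext x
  by_cases hx : x ∈ Metric.closedBall (0:V) ρ
  · have hx' : x + x₀ ∈ Metric.closedBall x₀ ρ := by
      rw [Metric.mem_closedBall, dist_eq_norm, add_sub_cancel_right]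
      simpa using hx
    rw [Set.indicator_of_mem hx, Set.indicator_of_mem hx']
  · have hx' : x + x₀ ∉ Metric.closedBall x₀ ρ := by
      rw [Metric.mem_closedBall, dist_eq_norm, add_sub_cancel_right]
      simpa using hx
    rw [Set.indicator_of_notMem hx, Set.indicator_of_notMem hx']

/-- The dichotomy with all balls at once. -/
theorem dichotomy_all (r : ℕ → ℝ) :
    (∃ ρ : ℝ, 0 < ρ ∧ ∃ C : ℝ≥0∞, C ≠ ∞ ∧ ∀ g : V → ℂ, MemLp g 2 (volume : Measure V) →
      en r (0 : V) ρ g ≤ C * ∫⁻ ξ, ‖g ξ‖ₑ ^ 2) ∨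
    (∀ᶠ g : Lp ℂ 2 (volume : Measure V) in residual (Lp ℂ 2 (volume : Measure V)),
      ∀ (x₀ : V) (ρ : ℝ), 0 < ρ → en r x₀ ρ (g : V → ℂ) = ∞) := by
  by_cases h : ∃ x₀ : V, ∃ ρ : ℝ, 0 < ρ ∧ ∃ C : ℝ≥0∞, C ≠ ∞ ∧
      ∀ g : V → ℂ, MemLp g 2 (volume : Measure V) → en r x₀ ρ g ≤ C * ∫⁻ ξ, ‖g ξ‖ₑ ^ 2
  · left
    obtain ⟨x₀, ρ, hρ, C, hC, hest⟩ := h
    refine ⟨ρ, hρ, C, hC, fun g hg => ?_⟩
    have hg' : MemLp (fun ξ => chr (-x₀) ξ * g ξ) 2 (volume : Measure V) := by
      refine hg.of_le ((continuous_chr_right (-x₀)).aestronglyMeasurable.mul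
        hg.aestronglyMeasurable) (Filter.Eventually.of_forall fun ξ => ?_)
      rw [norm_mul, norm_chr, one_mul]
    rw [en_translate r x₀ ρ]
    refine (hest _ hg').trans (le_of_eq ?_)
    congr 1
    congr 1
    funext ξ
    rw [enorm_mul, ← ofReal_norm (chr (-x₀) ξ), norm_chr, ENNReal.ofReal_one, one_mul]
  · right
    obtain ⟨D, hDc, hDd⟩ := TopologicalSpace.exists_countable_dense V
    have hall : ∀ᶠ g : Lp ℂ 2 (volume : Measure V) in residual (Lp ℂ 2 (volume : Measure V)),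
        ∀ x₀ ∈ D, ∀ ρ : ℝ, 0 < ρ → en r x₀ ρ (g : V → ℂ) = ∞ := by
      rw [eventually_countable_ball hDc]
      intro x₀ _
      rcases dichotomy r x₀ with h1 | h1
      · exact absurd ⟨x₀, h1⟩ h
      · exact h1
    filter_upwards [hall] with g hg x₀ ρ hρ
    obtain ⟨y, hyD, hy⟩ := hDd.exists_dist_lt x₀ (half_pos hρ)
    have h2 := hg y hyD (ρ / 2) (half_pos hρ)
    have h3 : en r y (ρ/2) (g : V → ℂ) ≤ en r x₀ ρ (g : V → ℂ) := by
      refine lintegral_mono_set (Metric.closedBall_subset_closedBall' ?_)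
      rw [dist_comm]
      linarith
    rw [h2] at h3
    exact top_le_iff.1 h3

end R13.Gen
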